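import Pool.Agent.helper88.HT.Spec

/-!
# Row ht:PH0
-/

set_option autoImplicit false

namespace Pool.Agent.helper88.HT

open Pool.Agent.helper38.Neg Pool.Agent.helper55.NT

lemma PH0_char {k : ℕ} (g : Gk k) : g + g = 0 := by
  funext j
  exact CharTwo.add_self_eq_zero (g j)

lemma PH0_syn {n k : ℕ} (H : Fin n → Gk k) (y z : Fin n → Bool) :
    syn H y + syn H z = ∑ i ∈ Finset.univ.filter (fun i => y i ≠ z i), H i := by
  unfold syn
  rw [← Finset.sum_add_distrib, Finset.sum_filter]
  refine Finset.sum_congr rfl fun i _ => ?_
  cases hy : y i <;> cases hz : z i <;> simp [PH0_char]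

theorem PH0 : PH0_stmt := by
  intro n s k C o H p q hpq hg hall
  classical
  by_contra hne
  have ht : PHI C o H p q = true := by
    cases h : PHI C o H p q with
    | true => rfl
    | false => exact absurd h hne
  unfold PHI at ht
  obtain ⟨σ, hσ⟩ := of_decide_eq_true ht
  -- a good completion z
  obtain ⟨z, hz, hz1⟩ : ∃ z, Al p q z ∧ ∀ y, Al p q y → syn H y = σ → y = z := by
    by_cases hex : ∃ z, Al p q z ∧ syn H z = σ
    · obtain ⟨z, hz, hzs⟩ := hex
      refine ⟨z, hz, fun y hy hys => ?_⟩
      by_contra hyz
      have hT : (Finset.univ.filter fun i => y i ≠ z i).Nonempty := by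
        obtain ⟨i, hi⟩ := Function.ne_iff.1 hyz
        exact ⟨i, Finset.mem_filter.2 ⟨Finset.mem_univ _, hi⟩⟩
      have hsub : (Finset.univ.filter fun i => y i ≠ z i) ⊆
          (Finset.univ.filter fun i => p i = true ∧ q i = true) := by
        intro i hi
        have hi' := (Finset.mem_filter.1 hi).2
        refine Finset.mem_filter.2 ⟨Finset.mem_univ _, ?_⟩
        cases hyi : y i with
        | true =>
          have hzi : z i = false := by
            cases hzi : z i with
            | true => exact absurd (hyi.trans hzi.symm) hi'
            | false => rfl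
          exact ⟨(hy i).1 hyi, (hz i).2 hzi⟩
        | false =>
          have hzi : z i = true := by
            cases hzi : z i with
            | true => rfl
            | false => exact absurd (hyi.trans hzi.symm) hi'
          exact ⟨(hz i).1 hzi, (hy i).2 hyi⟩
      refine hg _ hsub hT ?_
      rw [← PH0_syn, hys, hzs, PH0_char]
    · refine ⟨fun i => p i, fun i => ⟨fun h => h, fun h => ?_⟩, fun y hy hys => ?_⟩
      · rcases hpq i with h' | h'
        · exact absurd (h'.symm.trans h) (by simp)
        · exact h'
      · exact absurd ⟨y, hy, hys⟩ hex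
  have h1 := (dval_ge C z (ex H p q σ true) (ex H p q σ false) (fun i => by
    constructor
    · intro h
      unfold ex at h
      obtain ⟨y, hy, hyi, hys⟩ := of_decide_eq_true h
      rw [← hz1 y hy hys]
      exact hyi
    · intro h
      unfold ex at h
      obtain ⟨y, hy, hyi, hys⟩ := of_decide_eq_true h
      rw [← hz1 y hy hys]
      exact hyi) o).1 hσ
  rw [hall z hz] at h1
  exact absurd h1 (by simp)

end Pool.Agent.helper88.HT
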