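import Pool.Agent.helper88.HT.Spec

/-!
# Row ht:TOX
-/

set_option autoImplicit false

namespace Pool.Agent.helper88.HT

open Pool.Agent.helper38.Neg Pool.Agent.helper55.NT

theorem TOX_iff {n : ℕ} (l : ℕ) (Φ : (Fin n → Bool) → (Fin n → Bool) → Bool)
    (p q : Fin n → Bool) : TOT l Φ p q = true ↔ ∃ T : Finset (Fin n), T.card ≤ l ∧ ∀ U ⊆ T,
      ∀ p' q' : Fin n → Bool, (∀ j ∈ T, (p' j = true ↔ j ∈ U)) → (∀ j, j ∉ T → p' j = p j) →
      (∀ j ∈ T, (q' j = true ↔ j ∉ U)) → (∀ j, j ∉ T → q' j = q j) → Φ p' q' = true := by
  classical
  unfold TOT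
  rw [decide_eq_true_iff]
  refine exists_congr fun T => and_congr Iff.rfl ?_
  refine forall_congr' fun U => forall_congr' fun hU => ?_
  constructor
  · intro h p' q' h1 h2 h3 h4
    have e1 : p' = fun j => if j ∈ T then decide (j ∈ U) else p j := by
      funext j
      by_cases hj : j ∈ T
      · rw [if_pos hj, Bool.eq_iff_iff, h1 j hj, decide_eq_true_iff]
      · rw [if_neg hj, h2 j hj]
    have e2 : q' = fun j => if j ∈ T then decide (j ∉ U) else q j := by
      funext j
      by_cases hj : j ∈ T
      · rw [if_pos hj, Bool.eq_iff_iff, h3 j hj, decide_eq_true_iff]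
      · rw [if_neg hj, h4 j hj]
    rw [e1, e2]
    exact h
  · intro h
    refine h _ _ ?_ ?_ ?_ ?_
    · intro j hj
      simp only [if_pos hj, decide_eq_true_iff]
    · intro j hj
      simp only [if_neg hj]
    · intro j hj
      simp only [if_pos hj, decide_eq_true_iff]
    · intro j hj
      simp only [if_neg hj]

theorem TOX : TOX_stmt := by
  intro n k l Φ g hE hO
  classical
  refine ⟨?_, ?_, ?_⟩
  · intro x
    rw [Bool.eq_iff_iff, TOX_iff]
    constructor
    · rintro ⟨T, -, hT⟩
      have h1 := hT (T.filter fun i => x i = true) (Finset.filter_subset _ _) x (fun i => !(x i))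
        (fun j hj => by simp [hj]) (fun j _ => rfl) (fun j hj => by simp [hj]) (fun j _ => rfl)
      rw [hE] at h1
      exact h1
    · intro hg
      refine ⟨∅, by simp, fun U hU p' q' h1 h2 h3 h4 => ?_⟩
      have e1 : p' = x := funext fun j => h2 j (Finset.notMem_empty j)
      have e2 : q' = fun i => !(x i) := funext fun j => h4 j (Finset.notMem_empty j)
      rw [e1, e2, hE]
      exact hg
  · intro p q hpq hcard hall
    by_contra hne
    have ht : TOT l Φ p q = true := by
      cases h : TOT l Φ p q with
      | true => rfl
      | false => exact absurd h hne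
    rw [TOX_iff] at ht
    obtain ⟨T, -, hT⟩ := ht
    let q' : Fin n → Bool := fun j => if j ∈ T then !(p j) else q j
    have hq1 : ∀ j ∈ T, q' j = !(p j) := fun j hj => if_pos hj
    have hq2 : ∀ j, j ∉ T → q' j = q j := fun j hj => if_neg hj
    have h1 := hT (T.filter fun i => p i = true) (Finset.filter_subset _ _) p q'
        (fun j hj => by simp [hj]) (fun j _ => rfl) (fun j hj => by rw [hq1 j hj]; simp [hj]) hq2
    have h2 : Φ p q' = false := by
      refine hO p q' ?_ (le_trans (Finset.card_le_card ?_) hcard) ?_
      · intro i
        by_cases hi : i ∈ T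
        · rw [hq1 i hi]
          cases p i
          · right; rfl
          · left; rfl
        · rw [hq2 i hi]
          exact hpq i
      · intro i hi
        obtain ⟨-, ha, hb⟩ := Finset.mem_filter.1 hi
        refine Finset.mem_filter.2 ⟨Finset.mem_univ _, ha, ?_⟩
        by_cases hi' : i ∈ T
        · rw [hq1 i hi', ha] at hb
          exact absurd hb (by simp)
        · rw [hq2 i hi'] at hb
          exact hb
      · intro y hy
        refine hall y fun i => ⟨(hy i).1, fun hyi => ?_⟩
        have h3 := (hy i).2 hyi
        by_cases hi' : i ∈ T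
        · rw [hq1 i hi'] at h3
          have h4 : p i = false := by
            cases h5 : p i with
            | true => rw [h5] at h3; exact absurd h3 (by simp)
            | false => rfl
          rcases hpq i with h6 | h6
          · exact absurd (h6.symm.trans h4) (by simp)
          · exact h6
        · rw [hq2 i hi'] at h3
          exact h3
    exact absurd (h1.symm.trans h2) (by simp)
  · intro p q hpq hcard hall
    rw [TOX_iff]
    refine ⟨Finset.univ.filter fun i => p i = false ∧ q i = false, hcard,
      fun U hU p' q' h1 h2 h3 h4 => ?_⟩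
    have e : q' = fun i => !(p' i) := by
      funext j
      by_cases hj : j ∈ Finset.univ.filter fun i => p i = false ∧ q i = false
      · rw [Bool.eq_iff_iff, h3 j hj, Bool.not_eq_true', ← h1 j hj]
        simp
      · rw [h4 j hj, h2 j hj]
        have hj' : ¬ (p j = false ∧ q j = false) := fun h =>
          hj (Finset.mem_filter.2 ⟨Finset.mem_univ _, h⟩)
        have := hpq j
        cases hp : p j <;> cases hq : q j <;> simp_all
    rw [e, hE]
    refine hall p' fun i => ⟨fun hp => ?_, fun hq => ?_⟩
    · have hi : i ∉ Finset.univ.filter fun i => p i = false ∧ q i = false := fun h =>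
        absurd ((Finset.mem_filter.1 h).2.1.symm.trans hp) (by simp)
      rw [h2 i hi]
      exact hp
    · have hi : i ∉ Finset.univ.filter fun i => p i = false ∧ q i = false := fun h =>
        absurd ((Finset.mem_filter.1 h).2.2.symm.trans hq) (by simp)
      rw [h2 i hi]
      rcases hpq i with h | h
      · exact h
      · exact absurd (h.symm.trans hq) (by simp)

end Pool.Agent.helper88.HT
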